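import Mathlib

set_option autoImplicit false

open Filter Topology

namespace Pool.Agent.Results.MP_c130e3_pr

/-- A finite irreducible reversible continuous-time Markov chain on the states `0, ..., N`, given
by its generator `Q` and its stationary distribution `p`. -/
structure Chain where
  N : ℕ
  Q : Matrix (Fin (N + 1)) (Fin (N + 1)) ℝ
  p : Fin (N + 1) → ℝ
  rate_nonneg : ∀ x y, x ≠ y → 0 ≤ Q x y
  row_sum : ∀ x, ∑ y, Q x y = 0
  irreducible : ∀ x y, Relation.ReflTransGen (fun a b => 0 < Q a b) x y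
  p_pos : ∀ x, 0 < p x
  p_sum : ∑ x, p x = 1
  reversible : ∀ x y, p x * Q x y = p y * Q y x

/-- heat kernel `H_t = exp(tQ)` -/
noncomputable def Chain.heat (K : Chain) (t : ℝ) : Matrix (Fin (K.N + 1)) (Fin (K.N + 1)) ℝ :=
  NormedSpace.exp (t • K.Q)

/-- spectral gap: the smallest nonzero eigenvalue of `-Q` (by reversibility all eigenvalues are
real) -/
noncomputable def Chain.gap (K : Chain) : ℝ :=
  sInf {r : ℝ | r ≠ 0 ∧ ∃ f : Fin (K.N + 1) → ℝ, f ≠ 0 ∧ Matrix.mulVec (-K.Q) f = r • f}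

/-- worst-case relative entropy `d(t) = max_x sum_y H_t(x,y) log (H_t(x,y) / p(y))` -/
noncomputable def Chain.ent (K : Chain) (t : ℝ) : ℝ :=
  ⨆ x, ∑ y, K.heat t x y * Real.log (K.heat t x y / K.p y)

/-- `M = limsup d_n(0)` -/
noncomputable def supStart (K : ℕ → Chain) : EReal :=
  limsup (fun n => (((K n).ent 0 : ℝ) : EReal)) atTop

/-- mixing time `t_n = inf {t >= 0 : d_n(t) <= e}` -/
noncomputable def Chain.mix (K : Chain) (e : ℝ) : ℝ := sInf {t : ℝ | 0 ≤ t ∧ K.ent t ≤ e}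

/-- condition (1): `gap_n * t_n -> infinity` -/
def Cond1 (K : ℕ → Chain) (e : ℝ) : Prop :=
  Tendsto (fun n => (K n).gap * (K n).mix e) atTop atTop

/-- condition (2): cutoff at time `t_n` -/
def Cond2 (K : ℕ → Chain) (e : ℝ) : Prop :=
  ∀ δ : ℝ, 0 < δ → δ < 1 →
    Tendsto (fun n => (K n).ent ((1 + δ) * (K n).mix e)) atTop (𝓝 0) ∧
    Tendsto (fun n => (((K n).ent ((1 - δ) * (K n).mix e) : ℝ) : EReal)) atTop
      (𝓝 (supStart K))

/-- condition (3): `(t_n, b_n)` cutoff with `b_n = 1 / gap_n` (and `b_n / t_n -> 0`) -/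
def Cond3 (K : ℕ → Chain) (e : ℝ) : Prop :=
  Tendsto (fun n => ((K n).gap)⁻¹ / (K n).mix e) atTop (𝓝 0) ∧
  Tendsto (fun c : ℝ => limsup (fun n => (((K n).ent ((K n).mix e + c * ((K n).gap)⁻¹) : ℝ) :
    EReal)) atTop) atTop (𝓝 0) ∧
  Tendsto (fun c : ℝ => liminf (fun n => (((K n).ent ((K n).mix e + c * ((K n).gap)⁻¹) : ℝ) :
    EReal)) atTop) atBot (𝓝 (supStart K))

end Pool.Agent.Results.MP_c130e3_pr
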