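import Pool.Agent.H13.En.Main

set_option autoImplicit false

namespace Pool.Agent.Results.MP_c130e3_pr.EntropyCutoff

open Pool.Agent.Results.MP_c130e3_pr

/-- For worst-case relative entropy the spectral gap criterion fails: there is a family of
irreducible reversible chains with `M = infinity` such that for every `e` in `(0, M)` condition
(1) holds while (2) and (3) both fail. -/
theorem result : ∃ K : ℕ → Chain, supStart K = ⊤ ∧ ∀ e : ℝ, 0 < e →
    (∀ n, ∃ t : ℝ, 0 ≤ t ∧ (K n).ent t ≤ e) ∧ Cond1 K e ∧ ¬ Cond2 K e ∧ ¬ Cond3 K e :=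
  Pool.Agent.H13.En.main

end Pool.Agent.Results.MP_c130e3_pr.EntropyCutoff
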